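import Mathlib
import Pool.Agent.Helper43.UN.GoalsG
import Pool.Agent.Helper48.EW.E8b

/-!
# UN packet E8bn (MP_d3128a_ag)
-/

set_option autoImplicit false

namespace Pool.Agent.Helper75.UN

open Finset
open Pool.Agent.Helper43.Hw (T na va lz Play aa ac sc oo sk U Dd Sd)
open Pool.Agent.Helper18.EW
open Pool.Agent.Helper18.UW (Par4)
open Pool.Agent.Helper43.UN
open Pool.Agent.Helper48.EW (goalH1' goalH4' sum_ap Sd_le)

/-- elementary consequences of `Vp` -/
structure Num (μ R b l V δ τ : ℕ) : Prop where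
  μ1 : 2 ^ 40 ≤ μ
  lμ : 2 ^ 40 * l ≤ μ
  l1 : 1 ≤ l
  b1 : 2 ^ 40 ≤ b
  v1 : 1 ≤ V
  vμ : 2 ^ 40 * V ≤ μ
  R1 : 100 * μ ≤ R
  t1 : R - 1 - μ < τ + V
  t2 : τ + V ≤ R - 1 - μ + l
  δb : 25600 * δ ≤ b * l
  δμ : 2 ^ 40 * δ ≤ μ
  lV : l ≤ V

theorem num {μ δ R A N K b l Lg q v τ βp βm : ℕ} {S W : ℤ} {ℓ κ x : ℕ → ℕ}
    (P : Vp μ δ R A N K b l Lg q v τ βp βm S W ℓ κ x) : Num μ R b l (2 ^ q * v) δ τ := by
  have p1 := P.par.b1
  have p2 := P.par.b2
  have p3 := P.par.L1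
  have p4 := P.par.l1
  have p5 := P.par.R1
  have h1 := P.vb
  have h2 := P.vc
  have h3 := P.d1
  have hb : 2 ^ 42 ≤ b := le_trans (by nlinarith) p1
  have hq : 1 ≤ (q + 1) ^ 2 := Nat.one_le_pow _ _ (by omega)
  have hbl : 2 ^ 33 * (b * l) ≤ μ := by
    refine le_trans ?_ p2
    calc 2 ^ 33 * (b * l) = 2 ^ 33 * b * 1 * l := by ring
      _ ≤ 2 ^ 33 * b * (q + 1) ^ 2 * l := by gcongr
  have hbl2 : 2 ^ 42 * l ≤ b * l := Nat.mul_le_mul_right _ hb
  have hv : 1 ≤ 2 ^ q * v := Nat.mul_pos (by positivity) P.v1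
  generalize hV : 2 ^ q * v = V at *
  generalize hBL : b * l = BL at *
  have t1 := P.t1
  have t2 := P.t2
  rw [hV] at t1 t2
  refine ⟨?_, ?_, p4, ?_, hv, ?_, p5, t1, t2, ?_, ?_, ?_⟩ <;> omega

/-- the deaths between the rows `J` and `t` -/
theorem deaths {μ δ R A N K b l Lg q v τ βp βm : ℕ} {S W : ℤ} {ℓ κ x : ℕ → ℕ}
    (P : Vp μ δ R A N K b l Lg q v τ βp βm S W ℓ κ x) {t : ℕ} (ht : R - 1 - μ ≤ t)
    (ht2 : t - μ ≤ τ) (htR : t < R) (hκ : κ t = κ (R - 1 - μ)) :
    l * oo μ R κ x (R - 1 - μ) ≤ l * oo μ R κ x t + (160 * (t - (R - 1 - μ)) + 3 * l) := by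
  have n := num P
  have n1 := n.μ1
  have n6 := n.R1
  obtain ⟨a1, a2, a3, a4, a5, a6, a7⟩ := goalH1' μ R N κ x (by omega) (by omega) P.play
  have b5 := P.su (R - 1 - μ - μ) (t - μ) (by omega) (by omega) ht2
  have e1 : oo μ R κ x (R - 1 - μ) =
      ((range (κ t)).filter (fun c => R - 1 - μ < ac R κ x c + μ)).card := by
    unfold oo
    rw [hκ]
    congr 1
    refine filter_congr (fun c hc => ?_)
    exact (a6 (R - 1 - μ) (by omega) c (mem_range.1 hc)).2.2.2
  have e2 : oo μ R κ x t = ((range (κ t)).filter (fun c => t < ac R κ x c + μ)).card := by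
    unfold oo
    congr 1
    refine filter_congr (fun c hc => ?_)
    exact (a6 t htR c (mem_range.1 hc)).2.2.2
  have e3 : oo μ R κ x (R - 1 - μ) ≤
      oo μ R κ x t + (aa κ x (t - μ) - aa κ x (R - 1 - μ - μ)) := by
    rw [e1, e2]
    have hs : (range (κ t)).filter (fun c => R - 1 - μ < ac R κ x c + μ) ⊆
        (range (κ t)).filter (fun c => t < ac R κ x c + μ) ∪
          Ico (aa κ x (R - 1 - μ - μ)) (aa κ x (t - μ)) := by
      intro c hc
      rw [mem_union]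
      simp only [mem_filter, mem_range, mem_Ico] at hc ⊢
      by_cases h : t < ac R κ x c + μ
      · exact Or.inl ⟨hc.1, h⟩
      · right
        have c1 := (a1 c (R - 1 - μ - μ) (by omega)).2
        have c2 := (a1 c (t - μ) (by omega)).2
        constructor
        · apply c1.2
          omega
        · by_contra h4
          have := c2.1 (by omega)
          omega
    refine (card_le_card hs).trans ((card_union_le _ _).trans ?_)
    rw [Nat.card_Ico]
  have e4 := Nat.mul_le_mul_left l e3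
  rw [mul_add] at e4
  refine e4.trans (Nat.add_le_add_left (b5.trans ?_) _)
  have : t - μ - (R - 1 - μ - μ) = t - (R - 1 - μ) := by omega
  rw [this]

/-- no new old points after `τ` -/
theorem oo_le {μ δ R A N K b l Lg q v τ βp βm : ℕ} {S W : ℤ} {ℓ κ x : ℕ → ℕ}
    (P : Vp μ δ R A N K b l Lg q v τ βp βm S W ℓ κ x) {t : ℕ} (ht : τ ≤ t) (htR : t < R) :
    oo μ R κ x t ≤ oo μ R κ x τ := by
  have n := num P
  have n1 := n.μ1
  have n6 := n.R1
  obtain ⟨a1, a2, a3, a4, a5, a6, a7⟩ := goalH1' μ R N κ x (by omega) (by omega) P.play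
  unfold oo
  rw [(P.pa t ht htR).1]
  apply card_le_card
  intro c hc
  rw [mem_filter, mem_range] at hc ⊢
  refine ⟨hc.1, ?_⟩
  have h1 := (a6 t htR c (by rw [(P.pa t ht htR).1]; exact hc.1)).2.2.2.1 hc.2
  exact (a6 τ (by omega) c hc.1).2.2.2.2 (by omega)

/-- the row step after `J` -/
theorem stepJ {μ δ R A N K b l Lg q v τ βp βm : ℕ} {S W : ℤ} {ℓ κ x : ℕ → ℕ}
    (P : Vp μ δ R A N K b l Lg q v τ βp βm S W ℓ κ x) {t : ℕ} (ht : R ≤ t + 1 + μ) (h2 : t + 1 < R)
    (hτt : τ ≤ t) :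
    lz μ R N κ x (t + 1) + oo μ R κ x t + sk μ κ x t = lz μ R N κ x t + (N - κ τ) := by
  have n := num P
  have k1 := P.pa t hτt (by omega)
  have k2 := P.pa (t + 1) (by omega) h2
  have g2 := P.g2
  have := (goalH4' μ R N κ x (by have := n.μ1; omega) (by have := n.R1; have := n.μ1; omega)
    P.play t h2).1 (by rw [k1.1]; exact g2) (by rw [k2.1]; exact g2)
  rw [k1.1, k2.1, k1.2, k2.2] at this
  have e : na μ R (t + 1) = na μ R t + 1 := by
    unfold na
    omega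
  rw [e, mul_add] at this
  simp only [Nat.sub_self, zero_mul, mul_one, add_zero] at this
  have e2 : N - 1 - κ τ + 1 = N - κ τ := by omega
  omega

/-- the lengths after `J` -/
theorem lenJ {μ δ R A N K b l Lg q v τ βp βm : ℕ} {S W : ℤ} {ℓ κ x : ℕ → ℕ}
    (P : Vp μ δ R A N K b l Lg q v τ βp βm S W ℓ κ x) (i : ℕ) (hi : i ≤ μ) :
    ℓ (R - 1 - μ + i) + βm * i ≤ ℓ (R - 1 - μ) + βp * i + min i δ * (N - κ τ) := by
  have n := num P
  have n1 := n.μ1
  have n6 := n.R1
  induction i with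
  | zero => simp
  | succ i ih =>
    have h1 := ih (by omega)
    by_cases h : i < δ
    · have h2 := (P.i1 (R - 1 - μ + i) (by omega) (by omega)).2
      have h3 : min (i + 1) δ = min i δ + 1 := by omega
      rw [h3, add_mul, one_mul, mul_add, mul_add, mul_one, mul_one]
      rw [add_assoc (R - 1 - μ) i 1] at h2
      omega
    · have h2 := P.i2 (R - 1 - μ + i) (by omega) (by omega)
      have h3 : min (i + 1) δ = min i δ := by omega
      rw [h3, mul_add, mul_add, mul_one, mul_one]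
      rw [add_assoc (R - 1 - μ) i 1] at h2
      omega

/-- the triangular number as a sum -/
theorem sum_T (m : ℕ) : ∑ k ∈ range m, (k + 1) = T m := by
  induction m with
  | zero => simp [Pool.Agent.Helper43.Hw.T_zero]
  | succ m ih => rw [Finset.sum_range_succ, ih, Pool.Agent.Helper43.Hw.T_succ]

/-- the sum of the lengths -/
theorem sumL {μ δ R A N K b l Lg q v τ βp βm : ℕ} {S W : ℤ} {ℓ κ x : ℕ → ℕ}
    (P : Vp μ δ R A N K b l Lg q v τ βp βm S W ℓ κ x) :
    ∑ z ∈ range R, ℓ z + βm * T μ ≤ ∑ z ∈ range (R - 1 - μ), ℓ z +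
      ((μ + 1) * ℓ (R - 1 - μ) + βp * T μ + μ * (δ * (N - κ τ))) := by
  have n := num P
  have n1 := n.μ1
  have n6 := n.R1
  have e : R = (R - 1 - μ) + (μ + 1) := by omega
  have e1 : ∑ z ∈ range R, ℓ z = ∑ z ∈ range (R - 1 - μ), ℓ z +
      ∑ i ∈ range (μ + 1), ℓ (R - 1 - μ + i) := by
    conv_lhs => rw [e]
    rw [Finset.sum_range_add]
  rw [e1, add_assoc]
  apply Nat.add_le_add_left
  rw [Finset.sum_range_succ' (fun i => ℓ (R - 1 - μ + i))]
  have h1 : ∑ k ∈ range μ, (ℓ (R - 1 - μ + (k + 1)) + βm * (k + 1)) ≤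
      ∑ k ∈ range μ, ((ℓ (R - 1 - μ) + βp * (k + 1)) + δ * (N - κ τ)) := by
    refine Finset.sum_le_sum (fun k hk => ?_)
    have hk' := mem_range.1 hk
    refine (lenJ P (k + 1) (by omega)).trans ?_
    have : min (k + 1) δ * (N - κ τ) ≤ δ * (N - κ τ) := Nat.mul_le_mul_right _ (min_le_right _ _)
    omega
  rw [Finset.sum_add_distrib, Finset.sum_add_distrib, Finset.sum_add_distrib, Finset.sum_const,
    Finset.sum_const, card_range, smul_eq_mul, smul_eq_mul, ← Finset.mul_sum, ← Finset.mul_sum,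
    sum_T] at h1
  rw [add_zero]
  have h3 : (μ + 1) * ℓ (R - 1 - μ) = μ * ℓ (R - 1 - μ) + ℓ (R - 1 - μ) := by ring
  omega

/-- comparison of the loads and the lengths before `J` -/
theorem sumJ {μ δ R A N K b l Lg q v τ βp βm : ℕ} {S W : ℤ} {ℓ κ x : ℕ → ℕ}
    (P : Vp μ δ R A N K b l Lg q v τ βp βm S W ℓ κ x)
    (hG : ∀ t, τ ≤ t → t + 1 + μ ≤ R → lz μ R N κ x t ≤ ℓ t ∧
      20 * (ℓ t - lz μ R N κ x t) ≤ 3 * b * μ) :
    20 * ∑ z ∈ range (R - 1 - μ), ℓ z ≤ 20 * ∑ z ∈ range (R - 1 - μ), lz μ R N κ x z +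
      (2 ^ q * v) * (3 * b * μ) := by
  have n := num P
  have n1 := n.μ1
  have n6 := n.R1
  have n7 := n.t1
  have n8 := n.t2
  have n9 := n.lV
  have e : R - 1 - μ = τ + (R - 1 - μ - τ) := by omega
  rw [e, Finset.sum_range_add, Finset.sum_range_add]
  have h1 : ∑ z ∈ range τ, ℓ z = ∑ z ∈ range τ, lz μ R N κ x z :=
    Finset.sum_congr rfl (fun z hz => (P.ex z (mem_range.1 hz)).symm)
  have h2 : ∑ i ∈ range (R - 1 - μ - τ), 20 * ℓ (τ + i) ≤
      ∑ i ∈ range (R - 1 - μ - τ), (20 * lz μ R N κ x (τ + i) + 3 * b * μ) := by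
    refine Finset.sum_le_sum (fun i hi => ?_)
    have hi' := mem_range.1 hi
    have := hG (τ + i) (by omega) (by omega)
    omega
  rw [← Finset.mul_sum, Finset.sum_add_distrib, ← Finset.mul_sum, Finset.sum_const,
    card_range, smul_eq_mul] at h2
  have h3 : (R - 1 - μ - τ) * (3 * b * μ) ≤ (2 ^ q * v) * (3 * b * μ) :=
    Nat.mul_le_mul_right _ (by omega)
  rw [h1]
  omega

/-- the inequality at `J` -/
theorem atJ {μ δ R A N K b l Lg q v τ βp βm : ℕ} {S W : ℤ} {ℓ κ x : ℕ → ℕ} (h3 : GoalE3)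
    (P : Vp μ δ R A N K b l Lg q v τ βp βm S W ℓ κ x) (hS : (b : ℤ) * μ ^ 2 ≤ 3 * S)
    (hG : ∀ t, τ ≤ t → t + 1 + μ ≤ R → lz μ R N κ x t ≤ ℓ t ∧
      20 * (ℓ t - lz μ R N κ x t) ≤ 3 * b * μ) :
    (Dd μ R κ x (R - 1 - μ) : ℤ) + (N - κ τ + βm : ℕ) * T μ + W ≤
      (Sd μ R κ x (R - 1 - μ) + μ * (δ * (N - κ τ)) : ℕ) +
        (βp + oo μ R κ x (R - 1 - μ) : ℕ) * T μ := by
  have n := num P
  have n1 := n.μ1
  have n2 := n.lμ
  have n3 := n.l1
  have n5 := n.vμ
  have n6 := n.R1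
  have n7 := n.t1
  have n8 := n.t2
  have n9 := n.lV
  have k1 := P.pa (R - 1 - μ) (by omega) (by omega)
  have hx : x (R - 1 - μ) = 0 := by
    rw [k1.2]
    unfold na
    omega
  obtain ⟨a1, -⟩ := goalH1' μ R N κ x (by omega) (by omega) P.play
  have h4 := (h3 μ R N κ x (R - 1 - μ) (by omega) (by omega) P.play (by omega)
    (by rw [k1.1]; exact P.g2) (by omega)).2 (by
      apply ((a1 (κ (R - 1 - μ)) (R - 1 - μ) (by omega)).2).1
      unfold aa
      rw [hx]
      simp)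
  have r1 : R - 1 - (R - 1 - μ) = μ := by omega
  have r2 : R - (R - 1 - μ) = μ + 1 := by omega
  rw [r1, r2, hx, k1.1] at h4
  simp only [Nat.zero_sub, mul_zero, add_zero] at h4
  have s1 := sumL P
  have s2 := sumJ P hG
  have s3 := hG (R - 1 - μ) (by omega) (by omega)
  have s4 : 20 * ((μ + 1) * ℓ (R - 1 - μ)) ≤
      20 * ((μ + 1) * lz μ R N κ x (R - 1 - μ)) + (μ + 1) * (3 * b * μ) := by
    have : 20 * ℓ (R - 1 - μ) ≤ 20 * lz μ R N κ x (R - 1 - μ) + 3 * b * μ := by omega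
    nlinarith [Nat.mul_le_mul_left (μ + 1) this]
  have s5 : 2 ^ q * v * (3 * b * μ) + (μ + 1) * (3 * b * μ) ≤ 6 * (b * μ ^ 2) := by
    calc 2 ^ q * v * (3 * b * μ) + (μ + 1) * (3 * b * μ)
        = (2 ^ q * v + 1 + μ) * (3 * b * μ) := by ring
      _ ≤ (μ + μ) * (3 * b * μ) := by
          apply Nat.mul_le_mul_right
          omega
      _ = 6 * (b * μ ^ 2) := by ring
  have s6 : (∑ z ∈ range R, (ℓ z : ℤ)) = ((∑ z ∈ range R, ℓ z : ℕ) : ℤ) := by push_cast; rfl
  have hW := P.tot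
  rw [s6] at hW
  have hb0 : (0 : ℤ) ≤ (b : ℤ) * μ ^ 2 := by positivity
  zify at h4 s1 s2 s4 s5
  push_cast
  linarith [h4, s1, s2, s4, s5, hW, hS, hb0]

/-- the arithmetic at `J` -/
theorem arith {m l D S t A B W : ℤ} (hm : 1 ≤ m) (hl : 1 ≤ l)
    (ht : 2 * t = m * (m + 1)) (h1 : D + A * t + W ≤ S + B * t) (h2 : m ^ 3 ≤ 8 * l * D)
    (h3 : 2 ^ 30 * (l * S) ≤ m ^ 3) (h4 : 2 ^ 10 * l * |W| ≤ m ^ 3) :
    m + 5 * l * A ≤ 5 * l * B := by
  by_contra hc
  have hc1 : 5 * l * (B - A) ≤ m - 1 := by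
    have : 5 * l * (B - A) = 5 * l * B - 5 * l * A := by ring
    omega
  have ht0 : 0 ≤ t := by nlinarith
  have e1 : 10 * (l * ((B - A) * t)) ≤ m ^ 3 - m := by
    calc 10 * (l * ((B - A) * t)) = 2 * t * (5 * l * (B - A)) := by ring
      _ ≤ 2 * t * (m - 1) := by
        apply mul_le_mul_of_nonneg_left hc1
        omega
      _ = m ^ 3 - m := by rw [ht]; ring
  have e2 : l * (D + W - S) ≤ l * ((B - A) * t) := by
    apply mul_le_mul_of_nonneg_left _ (by omega)
    linarith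
  have e5 : -(2 ^ 10 * (l * W)) ≤ m ^ 3 := by
    have : l * (-W) ≤ l * |W| := mul_le_mul_of_nonneg_left (neg_le_abs W) (by omega)
    linarith
  have e6 : 0 < m ^ 3 := by positivity
  have e7 : m ^ 3 ≤ 8 * (l * D) := by linarith
  have e8 : l * (D + W - S) = l * D + l * W - l * S := by ring
  linarith

/-- the skips in the rows `J, …, J + n - 1` -/
theorem sum_sk {μ R : ℕ} {κ x : ℕ → ℕ} (hR : μ + 2 ≤ R) (n : ℕ) :
    ∑ i ∈ range n, sk μ κ x (R - 1 - μ + i) ≤ μ + n := by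
  have h1 : ∀ i ∈ range n, sk μ κ x (R - 1 - μ + i) ≤
      ((Ico (R - 1 - μ - μ) (R - 1 - μ + n)).filter
        (fun t => μ + t = x t + (R - 1 - μ + i))).card := by
    intro i hi
    have hi' := mem_range.1 hi
    unfold sk
    apply card_le_card
    intro t ht
    simp only [mem_filter, mem_range, mem_Ico] at ht ⊢
    omega
  refine (Finset.sum_le_sum h1).trans ?_
  have h2 : ∀ i ∈ range n, ∀ j ∈ range n, i ≠ j →
      Disjoint ((Ico (R - 1 - μ - μ) (R - 1 - μ + n)).filter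
        (fun t => μ + t = x t + (R - 1 - μ + i)))
      ((Ico (R - 1 - μ - μ) (R - 1 - μ + n)).filter
        (fun t => μ + t = x t + (R - 1 - μ + j))) := by
    intro i _ j _ hij
    rw [Finset.disjoint_left]
    intro t ht ht'
    simp only [mem_filter] at ht ht'
    omega
  rw [← Finset.card_biUnion h2]
  refine (card_le_card (t := Ico (R - 1 - μ - μ) (R - 1 - μ + n)) ?_).trans ?_
  · intro t ht
    rw [mem_biUnion] at ht
    obtain ⟨i, _, hi⟩ := ht
    exact (mem_filter.1 hi).1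
  · rw [Nat.card_Ico]
    omega

/-- packet E8bn -/
theorem goalE8bn (h3 : GoalE3) (h8 : GoalE8an) : GoalE8bn := by
  intro μ δ R A N K b l Lg q v τ βp βm S W ℓ κ x P hS hW2
  have n := num P
  have n1 := n.μ1
  have n2 := n.lμ
  have n3 := n.l1
  have n4 := n.b1
  have n5 := n.vμ
  have n6 := n.R1
  have n7 := n.t1
  have n8 := n.t2
  have n9 := n.lV
  have n10 := n.δb
  have n11 := n.δμ
  obtain ⟨hG, -⟩ := h8 μ δ R A N K b l Lg q v τ βp βm S W ℓ κ x P
  have hJ := atJ h3 P hS hG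
  have hD := P.dd (R - 1 - μ) (by omega) (by omega) (by omega)
  have r1 : R - 1 - (R - 1 - μ) = μ := by omega
  rw [r1] at hD
  have hSd := Sd_le (μ := μ) (R := R) (κ := κ) (x := x) (by omega)
  have hS2 : 2 ^ 30 * (l * (Sd μ R κ x (R - 1 - μ) + μ * (δ * (N - κ τ)))) ≤ μ ^ 3 := by
    have u1 : 2 ^ 40 * (l * Sd μ R κ x (R - 1 - μ)) ≤ μ ^ 3 := by
      calc 2 ^ 40 * (l * Sd μ R κ x (R - 1 - μ)) ≤ 2 ^ 40 * (l * μ ^ 2) := by gcongr
        _ = (2 ^ 40 * l) * μ ^ 2 := by ring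
        _ ≤ μ * μ ^ 2 := Nat.mul_le_mul_right _ n2
        _ = μ ^ 3 := by ring
    have u2 : 2 ^ 32 * (l * (μ * (δ * (N - κ τ)))) ≤ μ ^ 3 := by
      have hun := P.un
      calc 2 ^ 32 * (l * (μ * (δ * (N - κ τ)))) = 2 ^ 32 * δ * μ * (l * (N - κ τ)) := by ring
        _ ≤ 2 ^ 32 * δ * μ * (140 * μ) := Nat.mul_le_mul_left _ hun
        _ = (2 ^ 32 * 140 * δ) * μ ^ 2 := by ring
        _ ≤ μ * μ ^ 2 := by
            apply Nat.mul_le_mul_right
            omega
        _ = μ ^ 3 := by ring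
    rw [mul_add]
    omega
  have hX : μ + 5 * l * (N - κ τ + βm) ≤ 5 * l * (βp + oo μ R κ x (R - 1 - μ)) := by
    have := arith (m := μ) (l := l) (D := Dd μ R κ x (R - 1 - μ))
      (S := (Sd μ R κ x (R - 1 - μ) + μ * (δ * (N - κ τ)) : ℕ))
      (t := T μ) (A := (N - κ τ + βm : ℕ)) (B := (βp + oo μ R κ x (R - 1 - μ) : ℕ)) (W := W)
      (by omega) (by omega)
      (by exact_mod_cast Pool.Agent.Helper43.Hw.two_T μ)
      (by push_cast at hJ ⊢; linarith) (by exact_mod_cast hD) (by exact_mod_cast hS2) hW2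
    exact_mod_cast this
  have m1 : ∀ t, R ≤ t + 1 + μ → t < R - 1 - μ + μ / 4000 →
      μ + 16 * l * ℓ t + 16 * l * lz μ R N κ x (t + 1) ≤
        16 * l * ℓ (t + 1) + 16 * l * lz μ R N κ x t := by
    intro t ht1 ht2
    have s1 := stepJ P ht1 (by omega) (by omega)
    have s2 := (P.i1 t (by omega) (by omega)).1
    have s3 := deaths P
      (t := t) (by omega) (by omega) (by omega) (by
        rw [(P.pa t (by omega) (by omega)).1, (P.pa (R - 1 - μ) (by omega) (by omega)).1])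
    have s4 : μ + 16 * (l * (N - κ τ)) + 16 * (l * βm) ≤
        16 * (l * βp) + 16 * (l * oo μ R κ x t) := by
      have u1 : 5 * l * (N - κ τ + βm) = 5 * (l * (N - κ τ)) + 5 * (l * βm) := by ring
      have u2 : 5 * l * (βp + oo μ R κ x (R - 1 - μ)) =
        5 * (l * βp) + 5 * (l * oo μ R κ x (R - 1 - μ)) := by ring
      rw [u1, u2] at hX
      omega
    have s5 : 16 * l * lz μ R N κ x (t + 1) + 16 * (l * oo μ R κ x t) ≤
        16 * l * lz μ R N κ x t + 16 * (l * (N - κ τ)) := by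
      have := Nat.mul_le_mul_left (16 * l) (show lz μ R N κ x (t + 1) + oo μ R κ x t ≤
        lz μ R N κ x t + (N - κ τ) by omega)
      calc _ = 16 * l * (lz μ R N κ x (t + 1) + oo μ R κ x t) := by ring
        _ ≤ 16 * l * (lz μ R N κ x t + (N - κ τ)) := this
        _ = _ := by ring
    have s6 : 16 * l * (ℓ t + βp) = 16 * l * ℓ t + 16 * (l * βp) := by ring
    have s7 : 16 * l * (ℓ (t + 1) + βm) = 16 * l * ℓ (t + 1) + 16 * (l * βm) := by ring
    have s8 : 16 * l * (ℓ t + βp) ≤ 16 * l * (ℓ (t + 1) + βm) := Nat.mul_le_mul_left _ s2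
    rw [s6, s7] at s8
    omega
  have m2 : ∀ i, i ≤ μ / 4000 → lz μ R N κ x (R - 1 - μ + i) ≤ ℓ (R - 1 - μ + i) := by
    intro i
    induction i with
    | zero =>
      intro _
      exact (hG (R - 1 - μ) (by omega) (by omega)).1
    | succ i ih =>
      intro hi
      have v1 := ih (by omega)
      have v2 := m1 (R - 1 - μ + i) (by omega) (by omega)
      have v3 : 16 * l * lz μ R N κ x (R - 1 - μ + i) ≤ 16 * l * ℓ (R - 1 - μ + i) :=
        Nat.mul_le_mul_left _ v1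
      have v4 : 16 * l * lz μ R N κ x (R - 1 - μ + i + 1) ≤ 16 * l * ℓ (R - 1 - μ + i + 1) := by
        omega
      exact Nat.le_of_mul_le_mul_left v4 (by omega)
  refine ⟨m1, ?_, ?_⟩
  · intro t ht1 ht2
    have := m2 (t - (R - 1 - μ)) (by omega)
    rwa [show R - 1 - μ + (t - (R - 1 - μ)) = t by omega] at this
  · -- the upper bound
    have m3 : ∀ i, i ≤ δ → ℓ (R - 1 - μ + i) - lz μ R N κ x (R - 1 - μ + i) ≤
        (ℓ (R - 1 - μ) - lz μ R N κ x (R - 1 - μ)) + i * (9 + oo μ R κ x τ) +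
          ∑ j ∈ range i, sk μ κ x (R - 1 - μ + j) := by
      intro i
      induction i with
      | zero => intro _; simp
      | succ i ih =>
        intro hi
        have v1 := ih (by omega)
        have v2 := stepJ P (t := R - 1 - μ + i) (by omega) (by omega) (by omega)
        have v3 := (P.i1 (R - 1 - μ + i) (by omega) (by omega)).2
        have v4 := oo_le P (t := R - 1 - μ + i) (by omega) (by omega)
        have v5 := m2 i (by omega)
        rw [Finset.sum_range_succ, ← add_assoc (R - 1 - μ) i 1]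
        have v6 : (i + 1) * (9 + oo μ R κ x τ) = i * (9 + oo μ R κ x τ) + (9 + oo μ R κ x τ) := by
          ring
        have v7 := P.bp
        rw [v6]
        omega
    intro t ht1 ht2
    have w1 := m3 (t - (R - 1 - μ)) (by omega)
    rw [show R - 1 - μ + (t - (R - 1 - μ)) = t by omega] at w1
    have w2 := sum_sk (μ := μ) (R := R) (κ := κ) (x := x) (by omega) (t - (R - 1 - μ))
    have w3 := (hG (R - 1 - μ) (by omega) (by omega)).2
    have w4 : (t - (R - 1 - μ)) * (9 + oo μ R κ x τ) ≤ δ * (9 + oo μ R κ x τ) :=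
      Nat.mul_le_mul_right _ (by omega)
    have w5 : 256000 * (δ * oo μ R κ x τ) ≤ 1345 * (b * μ) := by
      have z1 := P.oa
      have z2 := P.hi
      have z3 : μ * (10 * (l * oo μ R κ x τ)) ≤ μ * (1344 * μ + 10 * l) := by
        calc μ * (10 * (l * oo μ R κ x τ)) = l * (10 * μ * oo μ R κ x τ) := by ring
          _ ≤ l * (42 * A + 10 * μ) := Nat.mul_le_mul_left _ z1
          _ = 42 * (l * A) + 10 * l * μ := by ring
          _ ≤ 42 * (32 * μ ^ 2) + 10 * l * μ := by gcongr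
          _ = μ * (1344 * μ + 10 * l) := by ring
      have z4 : 10 * (l * oo μ R κ x τ) ≤ 1344 * μ + 10 * l :=
        Nat.le_of_mul_le_mul_left z3 (by omega)
      have z5 : 10 * (l * oo μ R κ x τ) ≤ 1345 * μ := by omega
      have z6 : l * (256000 * (δ * oo μ R κ x τ)) ≤ l * (1345 * (b * μ)) := by
        calc l * (256000 * (δ * oo μ R κ x τ)) = (25600 * δ) * (10 * (l * oo μ R κ x τ)) := by ring
          _ ≤ (b * l) * (1345 * μ) := Nat.mul_le_mul n10 z5
          _ = l * (1345 * (b * μ)) := by ring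
      exact Nat.le_of_mul_le_mul_left z6 (by omega)
    have w6 : δ * (9 + oo μ R κ x τ) = 9 * δ + δ * oo μ R κ x τ := by ring
    have w7 : 2 ^ 40 * μ ≤ b * μ := Nat.mul_le_mul_right _ n4
    have w8 : 3 * b * μ = 3 * (b * μ) := by ring
    rw [w8] at w3
    rw [w6] at w4
    generalize b * μ = BM at *
    omega

end Pool.Agent.Helper75.UN
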