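import Pool.Agent.Helper43.UN.GoalsF
import Pool.Agent.Helper93.UW.CI

/-!
# Project UN (MP_d3128a_ag), packet CIn: Case I
-/

set_option autoImplicit false

namespace Pool.Agent.Helper75.UN

open Finset
open Pool.Agent.Lead.Sh
open Pool.Agent.Helper43.UN
open Pool.Agent.Helper43.Ah (rowsD)
open Pool.Agent.Helper18.EW (GoalF1Z triZ)
open Pool.Agent.Helper18.UW (lg OkU FUc SELc)
open Pool.Agent.Helper93.UW (two_ch ch_le_sq ch_mono triZ_full fuInd fuInj lg_facts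
  sum_filter_mono' sub2 sum_sdiff')

/-- the window theorem, independent conditions -/
theorem wgInd (hP : GoalPfn) (hWG : WGc) {M Mb R A β : ℕ} {lam : ℕ → ℕ} (S : Sh M Mb R A β lam)
    (B Hg : Finset ℕ) (m : ℕ → ℕ) (μ δ e bm W : ℕ) (he : 1050 * e ≤ A) (he' : 1050 * e ≤ R)
    (hbm : (e = 0 ∧ bm = 0) ∨ (M ≤ e ∧ bm = 1)) (hHg : Hg ⊆ B)
    (h1 : ∀ k ∈ Hg, 1 ≤ m k ∧ m k ≤ Mb) (h2 : ∀ k ∈ B, k ∉ Hg → 1 ≤ m k ∧ m k ≤ M)
    (h8t : 8 * ∑ k ∈ Hg, (m k + 1).choose 2 ≤ (rowsD R lam).card) (hμ : μ ≤ M)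
    (h128 : 128 * μ ≤ 2 ^ lg M) (hA : 2 ^ 120 * lg M ^ 3 * M ≤ A)
    (hAμ : A ≤ 28 * μ ^ 2) (hδ : 2 ^ 60 * lg M ^ 2 * δ ≤ μ)
    (hW : ∑ k ∈ B, (m k + 1).choose 2 + (e + 1).choose 2 + W = (rowsD R lam).card)
    (hW1 : 1 ≤ W) (hW2 : W ≤ 2 * A) (hW3 : 2 ^ 80 * lg M ^ 2 * A ≤ μ * W)
    (hc : 62 * M * (A + 1) ≤ ∑ k ∈ (B \ Hg).filter (fun k => μ ≤ m k + δ ∧ m k ≤ μ),
      (m k + 1).choose 2) :
    Ind ((rowsD R lam).filter (fun x => e ≤ x.1 + x.2)) (rows m B) := by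
  obtain ⟨p1, p2, p3, p4, p5, -⟩ := hP M Mb R A β e bm lam S he he' hbm
  have hcast : |((((rowsD R lam).filter (fun x => e ≤ x.1 + x.2)).card : ℕ) : ℤ) -
      ∑ k ∈ B, ((m k + 1).choose 2 : ℤ)| = W := by
    have : (((rowsD R lam).filter (fun x => e ≤ x.1 + x.2)).card : ℤ) =
        ∑ k ∈ B, ((m k + 1).choose 2 : ℤ) + W := by
      have h := hW
      rw [← p4] at h
      have h' : ((rowsD R lam).filter (fun x => e ≤ x.1 + x.2)).card =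
        ∑ k ∈ B, (m k + 1).choose 2 + W := by omega
      exact_mod_cast h'
    rw [this, add_sub_cancel_left]
    exact abs_of_nonneg (by positivity)
  have hb1 : bm ≤ 1 := by omega
  rcases hWG _ _ B Hg m M Mb μ δ (lg M) R A (e + 60 * M) β bm W p1 S.b9 hb1 p2 p3 hHg h1 h2 hμ
    h128 hA hAμ hδ (p5 _ h8t) hcast hW2 hW3 hc with h | h
  · exact h.2
  · exact absurd h.1 (by omega)

/-- the window theorem, injectivity -/
theorem wgInj (hP : GoalPfn) (hWG : WGc) {M Mb R A β : ℕ} {lam : ℕ → ℕ} (S : Sh M Mb R A β lam)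
    (B Hg : Finset ℕ) (m : ℕ → ℕ) (μ δ e bm W : ℕ) (he : 1050 * e ≤ A) (he' : 1050 * e ≤ R)
    (hbm : (e = 0 ∧ bm = 0) ∨ (M ≤ e ∧ bm = 1)) (hHg : Hg ⊆ B)
    (h1 : ∀ k ∈ Hg, 1 ≤ m k ∧ m k ≤ Mb) (h2 : ∀ k ∈ B, k ∉ Hg → 1 ≤ m k ∧ m k ≤ M)
    (h8t : 8 * ∑ k ∈ Hg, (m k + 1).choose 2 ≤ (rowsD R lam).card) (hμ : μ ≤ M)
    (h128 : 128 * μ ≤ 2 ^ lg M) (hA : 2 ^ 120 * lg M ^ 3 * M ≤ A)
    (hAμ : A ≤ 28 * μ ^ 2) (hδ : 2 ^ 60 * lg M ^ 2 * δ ≤ μ)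
    (hW : (rowsD R lam).card + W = ∑ k ∈ B, (m k + 1).choose 2 + (e + 1).choose 2)
    (hW1 : 1 ≤ W) (hW2 : W ≤ 2 * A) (hW3 : 2 ^ 80 * lg M ^ 2 * A ≤ μ * W)
    (hc : 62 * M * (A + 1) ≤ ∑ k ∈ (B \ Hg).filter (fun k => μ ≤ m k + δ ∧ m k ≤ μ),
      (m k + 1).choose 2) :
    Inj ((rowsD R lam).filter (fun x => e ≤ x.1 + x.2)) (rows m B) := by
  obtain ⟨p1, p2, p3, p4, p5, -⟩ := hP M Mb R A β e bm lam S he he' hbm
  have hcast : |((((rowsD R lam).filter (fun x => e ≤ x.1 + x.2)).card : ℕ) : ℤ) -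
      ∑ k ∈ B, ((m k + 1).choose 2 : ℤ)| = W := by
    have : ∑ k ∈ B, ((m k + 1).choose 2 : ℤ) =
        (((rowsD R lam).filter (fun x => e ≤ x.1 + x.2)).card : ℤ) + W := by
      have h := hW
      rw [← p4] at h
      have h' : ∑ k ∈ B, (m k + 1).choose 2 =
        ((rowsD R lam).filter (fun x => e ≤ x.1 + x.2)).card + W := by omega
      exact_mod_cast h'
    rw [this, sub_add_cancel_left, abs_neg]
    exact abs_of_nonneg (by positivity)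
  have hb1 : bm ≤ 1 := by omega
  rcases hWG _ _ B Hg m M Mb μ δ (lg M) R A (e + 60 * M) β bm W p1 S.b9 hb1 p2 p3 hHg h1 h2 hμ
    h128 hA hAμ hδ (p5 _ h8t) hcast hW2 hW3 hc with h | h
  · exact absurd h.1 (by omega)
  · exact h.2

/-- the end of the proof: the four applications of the window theorems and the gluing -/
theorem glueN (hP : GoalPfn) (hWG : WGc) (hFU : FUc) (hGN : GNc) (hF1 : GoalF1Z)
    {M Mb R A β : ℕ} {lam : ℕ → ℕ} (S : Sh M Mb R A β lam)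
    (A0 Hg A2 : Finset ℕ) (m : ℕ → ℕ) (μ δ s W1 : ℕ) (hHg : Hg ⊆ A0)
    (hH : ∀ k ∈ Hg, 1 ≤ m k ∧ m k ≤ Mb) (hA0 : ∀ k ∈ A0, k ∉ Hg → 1 ≤ m k ∧ m k ≤ M)
    (h8t : 8 * ∑ k ∈ Hg, (m k + 1).choose 2 ≤ (rowsD R lam).card) (hsub : A2 ⊆ A0 \ Hg)
    (hμ : μ ≤ M) (hAμ : A < 28 * μ ^ 2) (h8 : 2 ^ 60 * lg M ^ 2 * δ ≤ μ)
    (hsA : 1050 * s ≤ A) (hsR : 1050 * s ≤ R) (hsP : 2 ^ 200 * (lg M ^ 3 * M) ≤ s)
    (hq : 2 ^ 80 * lg M ^ 2 * (A + 1) ≤ μ * W1) (hW1 : 1 ≤ W1)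
    (hs1 : s * (s - 1) + 2 * (2 * W1 + 2) ≤ 2 * ∑ k ∈ A2, (m k + 1).choose 2)
    (hs2 : 2 * ∑ k ∈ A2, (m k + 1).choose 2 + 2 * (2 * W1 + 2) ≤ s * (s + 1))
    (hlo : (rowsD R lam).card ≤ ∑ k ∈ A0, (m k + 1).choose 2)
    (hhi : ∑ k ∈ A0, (m k + 1).choose 2 < (rowsD R lam).card + W1)
    (hcA : 62 * M * (A + 1) ≤ ∑ k ∈ A2.filter (fun k => μ ≤ m k + δ ∧ m k ≤ μ),
      (m k + 1).choose 2)
    (hcB : 62 * M * (A + 1) ≤ ∑ k ∈ ((A0 \ A2) \ Hg).filter (fun k => μ ≤ m k + δ ∧ m k ≤ μ),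
      (m k + 1).choose 2) : Inj (rowsD R lam) (rows m A0) := by
  have hM : 1 ≤ M := S.M1
  obtain ⟨hL10, h128⟩ := lg_facts M μ hM hμ
  have hL3 : 1 ≤ lg M ^ 3 := Nat.one_le_pow _ _ (by omega)
  have hPp : 1 ≤ lg M ^ 3 * M := Nat.mul_pos hL3 hM
  have hMP : M ≤ lg M ^ 3 * M := Nat.le_mul_of_pos_left _ hL3
  obtain ⟨P, hPdef⟩ : ∃ P, P = lg M ^ 3 * M := ⟨_, rfl⟩
  rw [← hPdef] at hPp hsP hMP
  have h6 : ∀ h, 2 ^ 120 * P ≤ h → 2 ^ 120 * lg M ^ 3 * M ≤ h := by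
    intro h hh
    rw [mul_assoc, ← hPdef]
    exact hh
  have hq' : ∀ h W, h ≤ A + 1 → W1 ≤ W → 2 ^ 80 * lg M ^ 2 * h ≤ μ * W := by
    intro h W hh hW
    exact (Nat.mul_le_mul_left _ hh).trans (hq.trans (Nat.mul_le_mul_left _ hW))
  have hc62 : ∀ e, e ≤ A → 62 * M * (e + 1) ≤ 62 * M * (A + 1) := fun e he =>
    Nat.mul_le_mul_left _ (by omega)
  have hdμ' : ∀ h, h ≤ A + 1 → h ≤ 28 * μ ^ 2 := by
    intro h hh
    omega
  have hs2' : 2 ≤ s := by omega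
  obtain ⟨r, rfl⟩ : ∃ r, s = r + 2 := ⟨s - 2, by omega⟩
  have hsub0 : A2 ⊆ A0 := hsub.trans sdiff_subset
  have hAB : (A0 \ A2) ∪ A2 = A0 := sdiff_union_of_subset hsub0
  have htot := sum_sdiff' m hsub0
  have hA1 : ∀ k ∈ A2, 1 ≤ m k ∧ m k ≤ M := fun k hk =>
    hA0 k (hsub0 hk) (mem_sdiff.1 (hsub hk)).2
  have hB1 : ∀ k ∈ A0 \ A2, k ∉ Hg → 1 ≤ m k ∧ m k ≤ M := fun k hk hk2 =>
    hA0 k (mem_sdiff.1 hk).1 hk2
  have hHgB : Hg ⊆ A0 \ A2 := by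
    intro k hk
    rw [mem_sdiff]
    exact ⟨hHg hk, fun h => (mem_sdiff.1 (hsub h)).2 hk⟩
  have c1 := (hF1 1 (r + 1) (r + 1 + 1) le_rfl (by omega) le_rfl).2.2.2.2
  have c2 := (hF1 1 r (r + 1) le_rfl (by omega) le_rfl).2.2.2.2
  have e1 : r + 1 + 1 - (r + 1 + 1) = 0 := by omega
  have e2 : r + 1 - (r + 1) = 0 := by omega
  rw [e1, zero_mul, add_zero] at c1
  rw [e2, zero_mul, add_zero] at c2
  have hX : (r + 2) * (r + 3) = (r + 1) * (r + 2) + 2 * (r + 2) := by ring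
  have hs1' : (r + 2) * (r + 2 - 1) = (r + 1) * (r + 2) := by
    rw [show r + 2 - 1 = r + 1 by omega, mul_comm]
  rw [hs1'] at hs1
  have hs2'' : (r + 2) * (r + 2 + 1) = (r + 2) * (r + 3) := rfl
  rw [hs2''] at hs2
  have hc1' : (r + 1 + 1) * (r + 1 + 2) = (r + 2) * (r + 3) := rfl
  rw [hc1'] at c1
  have k1 := two_ch (r + 1)
  have k2 := two_ch (r + 1 + 1)
  have k1' : (r + 1) * (r + 1 + 1) = (r + 1) * (r + 2) := rfl
  have k2' : (r + 1 + 1) * (r + 1 + 1 + 1) = (r + 2) * (r + 3) := rfl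
  rw [k1'] at k1
  rw [k2'] at k2
  have z1 : triD 0 (r + 1) = triZ (r + 1) (r + 1 + 1) := (triZ_full _).symm
  have z2 : triD 0 (r + 1 - 1) = triZ r (r + 1) := (triZ_full _).symm
  have hrows : (rows m A0).card = ∑ k ∈ A0, (m k + 1).choose 2 :=
    Helper18.Cusp.card_rows m A0
  have hPf := (hP M Mb R A β (r + 1) 1 lam S (by omega) (by omega)
    (Or.inr ⟨by omega, rfl⟩)).2.2.2.2.2
  have key := hGN m (rowsD R lam) (r + 1) (A0 \ A2) A2 (by omega) hPf disjoint_sdiff.symm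
    ?_ ?_ ?_ ?_ ?_
  · rw [hAB] at key
    exact key
  · rw [z1]
    apply fuInd hFU A2 m M μ δ (lg M) (r + 1) (r + 1 + 1)
      ((triZ (r + 1) (r + 1 + 1)).card - ∑ k ∈ A2, (m k + 1).choose 2) hA1 hμ h128 (by omega)
      le_rfl (by omega) (h6 _ (by omega)) (hdμ' _ (by omega)) h8 (by omega) (by omega) (by omega)
      (hq' _ _ (by omega) (by omega)) ((hc62 _ (by omega)).trans hcA)
  · rw [z2]
    apply fuInj hFU A2 m M μ δ (lg M) r (r + 1)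
      (∑ k ∈ A2, (m k + 1).choose 2 - (triZ r (r + 1)).card) hA1 hμ h128 (by omega)
      le_rfl (by omega) (h6 _ (by omega)) (hdμ' _ (by omega)) h8 (by omega) (by omega) (by omega)
      (hq' _ _ (by omega) (by omega)) ((hc62 _ (by omega)).trans hcA)
  · apply wgInd hP hWG S (A0 \ A2) Hg m μ δ (r + 1) 1
      ((rowsD R lam).card - (∑ k ∈ A0 \ A2, (m k + 1).choose 2 + (r + 1 + 1).choose 2))
      (by omega) (by omega) (Or.inr ⟨by omega, rfl⟩) hHgB hH hB1 h8t hμ h128 (h6 _ (by omega))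
      hAμ.le h8 (by omega) (by omega) (by omega) (hq' _ _ (by omega) (by omega)) hcB
  · apply wgInj hP hWG S (A0 \ A2) Hg m μ δ (r + 1 + 1) 1
      (∑ k ∈ A0 \ A2, (m k + 1).choose 2 + (r + 1 + 1 + 1).choose 2 - (rowsD R lam).card)
      (by omega) (by omega) (Or.inr ⟨by omega, rfl⟩) hHgB hH hB1 h8t hμ h128 (h6 _ (by omega))
      hAμ.le h8 (by omega) (by omega) (by omega) (hq' _ _ (by omega) (by omega)) hcB
  · rw [hAB, hrows]
    exact hlo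

/-- the area of the small triangles -/
theorem numS (D s1 Y : ℕ) (h2 : s1 ^ 2 ≤ D ^ 2 + 150 * Y) (h4 : 2 ^ 210 * Y ≤ D ^ 2)
    (h5 : 1 ≤ D) : 1000 * s1 ≤ 1001 * D := by
  by_contra h
  push Not at h
  have e1 : 1002001 * D ^ 2 < 1000000 * s1 ^ 2 := by nlinarith
  have e3 : 1 ≤ D ^ 2 := Nat.one_le_pow _ _ h5
  generalize D ^ 2 = D2 at *
  generalize s1 ^ 2 = s2 at *
  norm_num at h4
  omega

/-- the size of `D0 = min A R / 1100` -/
theorem numD (A R P : ℕ) (hAR : A ≤ 2 ^ 8 * R) (hP : 1 ≤ P) (hA : 2 ^ 400 * P ≤ A)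
    (hR : 2 ^ 400 * P ≤ R) : ∃ D, 1100 * D ≤ A ∧ 1100 * D ≤ R ∧ A ≤ 281600 * D + 281600 ∧
      2 ^ 230 * P ≤ D := by
  have e : (2 : ℕ) ^ 400 = 2 ^ 150 * 2 ^ 250 := by rw [← pow_add]
  have h0 : 2 ^ 250 * P ≤ 2 ^ 400 * P := by
    apply Nat.mul_le_mul_right
    rw [e]
    exact Nat.le_mul_of_pos_left _ (by positivity)
  have hA' := h0.trans hA
  have hR' := h0.trans hR
  clear h0 e hA hR
  rcases le_total A R with h | h
  · refine ⟨A / 1100, ?_, ?_, ?_, ?_⟩ <;> omega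
  · refine ⟨R / 1100, ?_, ?_, ?_, ?_⟩ <;> omega

/-- Case I -/
theorem caseIn (hP : GoalPfn) (hWG : WGc) (hFU : FUc) (hSEL : SELc) (hGN : GNc)
    (hF1 : GoalF1Z) : CaseIn := by
  classical
  intro A0 Hg m M Mb R A β μ δ lam S hHg hH hA0 h8t hlo hhi2 hμ hAμ h8 hcl
  have hμ1 : 1 ≤ μ := by
    rcases Nat.eq_zero_or_pos μ with h0 | h0
    · subst h0; simp at hAμ
    · exact h0
  have hM : 1 ≤ M := S.M1
  obtain ⟨hL10, h128⟩ := lg_facts M μ hM hμ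
  have hL3 : 1 ≤ lg M ^ 3 := Nat.one_le_pow _ _ (by omega)
  have hL2 : 1 ≤ lg M ^ 2 := Nat.one_le_pow _ _ (by omega)
  have hPp : 1 ≤ lg M ^ 3 * M := Nat.mul_pos hL3 hM
  have hMP : M ≤ lg M ^ 3 * M := Nat.le_mul_of_pos_left _ hL3
  have hμP : lg M ^ 3 * μ ≤ lg M ^ 3 * M := Nat.mul_le_mul_left _ hμ
  obtain ⟨D, hDA, hDR, hAD, hDP⟩ := numD A R (lg M ^ 3 * M) S.hAR hPp
    (by rw [← mul_assoc]; exact S.hA) (by rw [← mul_assoc]; exact S.hR)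
  obtain ⟨W1, hW1⟩ : ∃ W1, W1 = (2 ^ 80 * lg M ^ 2 * (A + 1)) / μ + 1 := ⟨_, rfl⟩
  have hW1p : 1 ≤ W1 := by
    rw [hW1]
    exact Nat.le_add_left 1 _
  have hqW : 2 ^ 80 * lg M ^ 2 * (A + 1) ≤ μ * W1 := by
    have := Nat.lt_mul_div_succ (2 ^ 80 * lg M ^ 2 * (A + 1)) hμ1
    rw [← hW1] at this
    exact this.le
  have hqW2 : μ * W1 ≤ 2 ^ 80 * lg M ^ 2 * (A + 1) + μ := by
    have := Nat.mul_div_le (2 ^ 80 * lg M ^ 2 * (A + 1)) μ
    rw [hW1, mul_add, mul_one]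
    omega
  obtain ⟨Y, hY⟩ : ∃ Y, Y = M * (A + 1) := ⟨_, rfl⟩
  have hcl' : 62 * M * (A + 1) ≤ 1000 * M * (A + 1) :=
    Nat.mul_le_mul_right _ (Nat.mul_le_mul_right _ (by norm_num))
  rcases Nat.lt_or_ge (∑ k ∈ A0, (m k + 1).choose 2) ((rowsD R lam).card + W1) with hlt | hge
  swap
  · -- many conditions
    have hf : (rowsD R lam).filter (fun x => 0 ≤ x.1 + x.2) = rowsD R lam :=
      filter_true_of_mem fun x _ => Nat.zero_le _
    rw [← hf]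
    apply wgInj hP hWG S A0 Hg m μ δ 0 0
      (∑ k ∈ A0, (m k + 1).choose 2 - (rowsD R lam).card) (by omega) (by omega)
      (Or.inl ⟨rfl, rfl⟩) hHg hH hA0 h8t hμ h128 (by rw [mul_assoc]; omega) hAμ.le h8 ?_
      (by omega) (by omega) ?_ (hcl'.trans hcl)
    · have : (0 + 1).choose 2 = 0 := rfl
      omega
    · refine (Nat.mul_le_mul_left _ (Nat.le_succ A)).trans
        (hqW.trans (Nat.mul_le_mul_left _ (by omega)))
  · -- the sets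
    have hY1 : 62 * M * (A + 1) = 62 * Y := by rw [hY]; ring
    have hY2 : 1000 * M * (A + 1) = 1000 * Y := by rw [hY]; ring
    rw [hY2] at hcl
    have hMd : M ^ 2 ≤ Y := by rw [hY, pow_two]; exact Nat.mul_le_mul_left _ (by omega)
    have hYd : 2 ^ 210 * Y ≤ D ^ 2 := by
      have h1 : M * (A + 1) ≤ (lg M ^ 3 * M) * (2 ^ 20 * D) :=
        Nat.mul_le_mul hMP (by omega)
      have h2 : 2 ^ 230 * (lg M ^ 3 * M) * D ≤ D * D := Nat.mul_le_mul_right _ hDP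
      calc 2 ^ 210 * Y ≤ 2 ^ 210 * ((lg M ^ 3 * M) * (2 ^ 20 * D)) := by
            rw [hY]; exact Nat.mul_le_mul_left _ h1
        _ = 2 ^ 230 * (lg M ^ 3 * M) * D := by ring
        _ ≤ D * D := h2
        _ = D ^ 2 := (pow_two D).symm
    have hND : 242000 * D ^ 2 ≤ (rowsD R lam).card := by
      have h1 := S.area
      have h2 : (1100 * D) * (1100 * D) ≤ A * R := Nat.mul_le_mul hDA hDR
      rw [Pool.Agent.Helper43.Ah.card_rowsD]
      have h3 : (1100 * D) * (1100 * D) = 1210000 * D ^ 2 := by ring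
      omega
    obtain ⟨Cl, hCl⟩ : ∃ Cl, Cl = (A0 \ Hg).filter (fun k => μ ≤ m k + δ ∧ m k ≤ μ) := ⟨_, rfl⟩
    rw [← hCl] at hcl
    have hClA : Cl ⊆ A0 \ Hg := by rw [hCl]; exact filter_subset _ _
    have hAH : ∀ k ∈ A0 \ Hg, 1 ≤ m k ∧ m k ≤ M := fun k hk =>
      hA0 k (mem_sdiff.1 hk).1 (mem_sdiff.1 hk).2
    have hClμ : ∀ k ∈ Cl, μ ≤ m k + δ ∧ m k ≤ μ := by
      intro k hk
      rw [hCl, mem_filter] at hk
      exact hk.2
    have hClM : ∀ k ∈ Cl, m k ≤ M := fun k hk => (hAH k (hClA hk)).2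
    obtain ⟨CA, hCA, tCA1, tCA2⟩ := sub2 M (62 * Y) hM m Cl hClM (by omega)
    have tCl1 := sum_sdiff' m hCA
    obtain ⟨CB, hCB, tCB1, tCB2⟩ := sub2 M (62 * Y) hM m (Cl \ CA)
      (fun k hk => hClM k (mem_sdiff.1 hk).1) (by omega)
    have tCl2 := sum_sdiff' m hCB
    -- the set `F`
    obtain ⟨n, hn⟩ : ∃ n, n = 7 * D / μ + 1 := ⟨_, rfl⟩
    have hnμ : 7 * D ≤ μ * n := by
      have := Nat.lt_mul_div_succ (7 * D) hμ1
      rw [← hn] at this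
      exact this.le
    have hnμ2 : μ * n ≤ 7 * D + μ := by
      have := Nat.mul_div_le (7 * D) μ
      rw [hn, mul_add, mul_one]
      omega
    have hnY : n * μ ^ 2 ≤ 7 * Y := by
      have h3 : n * μ ^ 2 = (μ * n) * μ := by ring
      have h4 : (μ * n) * μ ≤ (7 * D + μ) * M := Nat.mul_le_mul hnμ2 hμ
      have h5 : (7 * D + μ) * M ≤ (7 * (A + 1)) * M := Nat.mul_le_mul_right _ (by omega)
      have h6 : (7 * (A + 1)) * M = 7 * Y := by rw [hY]; ring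
      omega
    have hcardF : n ≤ ((Cl \ CA) \ CB).card := by
      by_contra hcon
      push Not at hcon
      have h1 : ∑ k ∈ (Cl \ CA) \ CB, (m k + 1).choose 2 ≤ ((Cl \ CA) \ CB).card * μ ^ 2 := by
        rw [← smul_eq_mul]
        apply sum_le_card_nsmul
        intro k hk
        exact (ch_mono (hClμ k (mem_sdiff.1 (mem_sdiff.1 hk).1).1).2).trans (ch_le_sq μ)
      have h2 : ((Cl \ CA) \ CB).card * μ ^ 2 ≤ n * μ ^ 2 :=
        Nat.mul_le_mul_right _ (by omega)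
      have hYp : 1 ≤ Y := by rw [hY]; exact Nat.mul_pos hM (by omega)
      omega
    obtain ⟨F, hF, hFn⟩ := exists_subset_card_eq hcardF
    have hFCl : F ⊆ Cl := hF.trans (sdiff_subset.trans sdiff_subset)
    have tF : ∑ k ∈ F, (m k + 1).choose 2 ≤ 7 * Y := by
      have h1 : ∑ k ∈ F, (m k + 1).choose 2 ≤ F.card * μ ^ 2 := by
        rw [← smul_eq_mul]
        apply sum_le_card_nsmul
        intro k hk
        exact (ch_mono (hClμ k (hFCl hk)).2).trans (ch_le_sq μ)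
      rw [hFn] at h1
      omega
    -- the set `U`
    have dCACB : Disjoint CA CB := by
      rw [disjoint_left]
      intro k h1 h2
      exact (mem_sdiff.1 (hCB h2)).2 h1
    have dCAF : Disjoint CA F := by
      rw [disjoint_left]
      intro k h1 h2
      exact (mem_sdiff.1 (mem_sdiff.1 (hF h2)).1).2 h1
    have dCBF : Disjoint CB F := by
      rw [disjoint_left]
      intro k h1 h2
      exact (mem_sdiff.1 (hF h2)).2 h1
    obtain ⟨E, hE⟩ : ∃ E, E = (CA ∪ CB) ∪ F := ⟨_, rfl⟩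
    have hEA : E ⊆ A0 \ Hg := by
      rw [hE]
      exact union_subset (union_subset (hCA.trans hClA)
        ((hCB.trans sdiff_subset).trans hClA)) (hFCl.trans hClA)
    have tE : ∑ k ∈ E, (m k + 1).choose 2 = ∑ k ∈ CA, (m k + 1).choose 2 +
        ∑ k ∈ CB, (m k + 1).choose 2 + ∑ k ∈ F, (m k + 1).choose 2 := by
      rw [hE, sum_union (disjoint_union_left.2 ⟨dCAF, dCBF⟩), sum_union dCACB]
    have tAE := sum_sdiff' m hEA
    have tAH := sum_sdiff' m hHg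
    obtain ⟨U, hU, tU1, tU2⟩ := sub2 M ((D ^ 2 + 1) / 2) hM m ((A0 \ Hg) \ E)
      (fun k hk => (hAH k (mem_sdiff.1 hk).1).2) (by omega)
    have hUA : U ⊆ A0 \ Hg := hU.trans sdiff_subset
    have hUE : ∀ k ∈ U, k ∉ E := fun k hk => (mem_sdiff.1 (hU hk)).2
    have dCAU : Disjoint CA U := by
      rw [disjoint_left]
      intro k h1 h2
      exact hUE k h2 (by rw [hE]; exact mem_union_left _ (mem_union_left _ h1))
    have tA0 : ∑ k ∈ CA ∪ U, (m k + 1).choose 2 = ∑ k ∈ CA, (m k + 1).choose 2 +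
        ∑ k ∈ U, (m k + 1).choose 2 := sum_union dCAU
    have dA0F : Disjoint (CA ∪ U) F := by
      rw [disjoint_union_left]
      refine ⟨dCAF, ?_⟩
      rw [disjoint_left]
      intro k h1 h2
      exact hUE k h1 (by rw [hE]; exact mem_union_right _ h2)
    -- the number `s1`
    obtain ⟨s1, hs1⟩ : ∃ s1, s1 = Nat.sqrt (2 * ∑ k ∈ CA ∪ U, (m k + 1).choose 2) := ⟨_, rfl⟩
    have hs1a : s1 ^ 2 ≤ 2 * ∑ k ∈ CA ∪ U, (m k + 1).choose 2 := by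
      rw [hs1]; exact Nat.sqrt_le' _
    have hs1b : 2 * ∑ k ∈ CA ∪ U, (m k + 1).choose 2 ≤ (s1 + 1) ^ 2 := by
      rw [hs1]; exact (Nat.lt_succ_sqrt' _).le
    have hs1c : D ≤ s1 := by
      rw [hs1, Nat.le_sqrt', tA0]
      omega
    have hYp : 1 ≤ Y := by rw [hY]; exact Nat.mul_pos hM (by omega)
    have hs1d : 1000 * s1 ≤ 1001 * D := by
      apply numS D s1 Y (hs1a.trans _) hYd (by omega)
      rw [tA0]
      omega
    have hμ2 : 10 * s1 ≤ μ ^ 2 := by omega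
    have hWs : μ * (2 * W1 + 2) ≤ 2 ^ 100 * lg M ^ 2 * s1 := by
      have h1 : μ * (2 * W1 + 2) = 2 * (μ * W1) + 2 * μ := by ring
      have h2 : 2 ^ 80 * lg M ^ 2 * (A + 1) ≤ 2 ^ 80 * lg M ^ 2 * (300000 * s1) :=
        Nat.mul_le_mul_left _ (by omega)
      have h3 : 2 ^ 80 * lg M ^ 2 * (300000 * s1) = 300000 * 2 ^ 80 * (lg M ^ 2 * s1) := by ring
      have h4 : 2 ^ 100 * lg M ^ 2 * s1 = 2 ^ 100 * (lg M ^ 2 * s1) := by ring
      have h5 : s1 ≤ lg M ^ 2 * s1 := Nat.le_mul_of_pos_left _ hL2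
      rw [h1, h4]
      rw [h3] at h2
      omega
    obtain ⟨J, s, hJ, hs0, hsa, hsb⟩ := hSEL (CA ∪ U) F m μ δ (lg M) s1 (2 * W1 + 2) dA0F
      (fun k hk => hClμ k (hFCl hk)) hs1a hs1b hμ1 (by omega)
      (by rw [mul_assoc]; omega) hμ2 h128 h8 (by rw [hFn]; omega) hWs
    have tJ : ∑ k ∈ J, (m k + 1).choose 2 ≤ 7 * Y := (sum_filter_mono' m hJ).trans tF
    have tA' : ∑ k ∈ (CA ∪ U) ∪ J, (m k + 1).choose 2 = ∑ k ∈ CA ∪ U, (m k + 1).choose 2 +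
        ∑ k ∈ J, (m k + 1).choose 2 := sum_union (disjoint_of_subset_right hJ dA0F)
    have hss1 : s1 ≤ s := by
      by_contra hcon
      push Not at hcon
      have h1 : (s + 1) ^ 2 ≤ s1 ^ 2 := Nat.pow_le_pow_left hcon 2
      have h2 : (s + 1) ^ 2 = s * (s + 1) + s + 1 := by ring
      omega
    have hsu : 1000 * (s - 1) ≤ 1001 * D := by
      apply numS D (s - 1) Y _ hYd (by omega)
      have h1 : (s - 1) ^ 2 ≤ s * (s - 1) := by
        rw [pow_two]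
        exact Nat.mul_le_mul_right _ (by omega)
      rw [tA', tA0] at hsa
      omega
    have hA'A : (CA ∪ U) ∪ J ⊆ A0 \ Hg := union_subset (union_subset (hCA.trans hClA) hUA)
      (hJ.trans (hFCl.trans hClA))
    apply glueN hP hWG hFU hGN hF1 S A0 Hg ((CA ∪ U) ∪ J) m μ δ s W1 hHg hH hA0 h8t hA'A hμ hAμ h8
      (by omega) (by omega) (by omega) hqW hW1p hsa hsb hlo hlt
    · rw [hY1]
      refine tCA1.trans (sum_filter_mono' m ?_)
      intro k hk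
      rw [mem_filter]
      exact ⟨mem_union_left _ (mem_union_left _ hk), hClμ k (hCA hk)⟩
    · rw [hY1]
      refine tCB1.trans (sum_filter_mono' m ?_)
      intro k hk
      have hkCl : k ∈ Cl := (mem_sdiff.1 (hCB hk)).1
      rw [mem_filter, mem_sdiff, mem_sdiff]
      refine ⟨⟨⟨(mem_sdiff.1 (hClA hkCl)).1, ?_⟩, (mem_sdiff.1 (hClA hkCl)).2⟩, hClμ k hkCl⟩
      intro hmem
      rcases mem_union.1 hmem with h | h
      · rcases mem_union.1 h with h | h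
        · exact (disjoint_left.1 dCACB) h hk
        · exact hUE k h (by rw [hE]; exact mem_union_left _ (mem_union_right _ hk))
      · exact (disjoint_left.1 dCBF) hk (hJ h)

/-- packet CIn -/
theorem goalCIn : GoalCIn := caseIn

end Pool.Agent.Helper75.UN
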